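import Mathlib
import Pool.Agent.helper64.OT.SpecW

/-!
# Project OT (MP_f6e9a2_nt), row RRS: the power sums of the resultant L-function
-/

set_option autoImplicit false

namespace Pool.Agent.OT

open Finset Polynomial Pool.Agent.helper82.Weil Pool.Agent.helper82.KL

theorem RRS (hRRN : RRN_stmt) : RRS_stmt := by
  classical
  intro p _ K _ _ _ χ f m hf hm
  rw [SA_eq (LR χ f) m hm, mul_sum]
  refine sum_congr rfl fun x _ => ?_
  have hd : (minpoly (ZMod p) x).natDegree ∣ m := by
    rw [← hm]
    exact minpoly.degree_dvd (Algebra.IsIntegral.isIntegral x)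
  have hN : normChar K χ (aeval x f) = χ (Algebra.norm (ZMod p) (aeval x f)) := rfl
  rw [hN, hRRN p K x f, hm]
  unfold LR
  rw [← map_pow, ← map_mul, resultant_comm, mul_pow, ← pow_mul, mul_assoc, Nat.mul_div_cancel' hd]

end Pool.Agent.OT
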