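import Mathlib
import Pool.Agent.helper64.OT.SpecW

/-!
# Project OT (MP_f6e9a2_nt), row WNW: Newton's identities for a product of linear factors
-/

set_option autoImplicit false

namespace Pool.Agent.OT

open Finset Polynomial Pool.Agent.helper82.Weil Pool.Agent.helper82.KL

theorem WNW_idx (F : ℕ → ℕ → ℂ) (n : ℕ) :
    ∑ r ∈ Icc 1 n, F r (n - r) = ∑ i ∈ range n, F (i + 1) (n - 1 - i) := by
  have h1 : Icc 1 n = Ico 1 (n + 1) := by
    ext x
    rw [mem_Icc, mem_Ico]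
    omega
  rw [h1, sum_Ico_eq_sum_range, Nat.add_sub_cancel]
  refine sum_congr rfl fun i _ => ?_
  rw [add_comm 1 i]
  congr 1
  omega

theorem WNW_tel (L M : ℕ → ℂ) (a : ℂ) (h0 : M 0 = L 0) (h1 : ∀ k, M (k + 1) = L (k + 1) - a * L k) (k : ℕ) :
    ∑ i ∈ range (k + 1), a ^ (i + 1) * M (k - i) = a * L k := by
  induction k with
  | zero => simp [h0]
  | succ k ih =>
    rw [sum_range_succ']
    have e1 : ∑ i ∈ range (k + 1), a ^ (i + 1 + 1) * M (k + 1 - (i + 1)) =
        a * ∑ i ∈ range (k + 1), a ^ (i + 1) * M (k - i) := by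
      rw [mul_sum]
      refine sum_congr rfl fun i _ => ?_
      rw [Nat.add_sub_add_right, pow_succ]
      ring
    rw [e1, ih, Nat.sub_zero, h1]
    ring

theorem WNW_dif (S L M : ℕ → ℂ) (a : ℂ) (h0 : M 0 = L 0) (h1 : ∀ k, M (k + 1) = L (k + 1) - a * L k) (k : ℕ) :
    ∑ i ∈ range (k + 1), S (i + 1) * M (k - i) =
      ∑ i ∈ range (k + 1), S (i + 1) * L (k - i) - a * ∑ i ∈ range k, S (i + 1) * L (k - 1 - i) := by
  rw [sum_range_succ, sum_range_succ, Nat.sub_self, h0, mul_sum]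
  have e1 : ∑ i ∈ range k, S (i + 1) * M (k - i) = ∑ i ∈ range k, S (i + 1) * L (k - i) -
      ∑ i ∈ range k, a * (S (i + 1) * L (k - 1 - i)) := by
    rw [← sum_sub_distrib]
    refine sum_congr rfl fun i hi => ?_
    rw [mem_range] at hi
    obtain ⟨m, hm⟩ : ∃ m, k - i = m + 1 := ⟨k - i - 1, by omega⟩
    have hm' : k - 1 - i = m := by omega
    rw [hm, hm', h1]
    ring
  rw [e1]
  ring

theorem WNW_step (S L M : ℕ → ℂ) (a : ℂ) (h0 : M 0 = L 0) (h1 : ∀ k, M (k + 1) = L (k + 1) - a * L k)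
    (hL : ∀ n : ℕ, (n : ℂ) * L n = ∑ r ∈ Icc 1 n, S r * L (n - r)) (n : ℕ) :
    (n : ℂ) * M n = ∑ r ∈ Icc 1 n, (S r - a ^ r) * M (n - r) := by
  rcases n with _ | k
  · simp
  have hL1 := hL (k + 1)
  have hL0 := hL k
  rw [WNW_idx (fun r m => S r * L m)] at hL1 hL0
  rw [WNW_idx (fun r m => (S r - a ^ r) * M m)]
  rw [Nat.add_sub_cancel] at hL1 ⊢
  have e1 : ∑ i ∈ range (k + 1), (S (i + 1) - a ^ (i + 1)) * M (k - i) =
      ∑ i ∈ range (k + 1), S (i + 1) * M (k - i) - ∑ i ∈ range (k + 1), a ^ (i + 1) * M (k - i) := by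
    rw [← sum_sub_distrib]
    exact sum_congr rfl fun i _ => by ring
  rw [e1, WNW_tel L M a h0 h1, WNW_dif S L M a h0 h1, ← hL1, ← hL0, h1]
  push_cast
  ring

theorem WNW : WNW_stmt := by
  classical
  intro ι s α
  induction s using Finset.induction_on with
  | empty =>
    intro n
    rcases n with _ | k
    · simp
    · simp [Polynomial.coeff_one]
  | insert b s hb ih =>
    intro n
    have h0 : (∏ j ∈ insert b s, (1 - C (α j) * X : ℂ[X])).coeff 0 =
        (∏ j ∈ s, (1 - C (α j) * X : ℂ[X])).coeff 0 := by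
      rw [prod_insert hb, Polynomial.mul_coeff_zero]
      simp
    have h1 : ∀ k : ℕ, (∏ j ∈ insert b s, (1 - C (α j) * X : ℂ[X])).coeff (k + 1) =
        (∏ j ∈ s, (1 - C (α j) * X : ℂ[X])).coeff (k + 1) -
          α b * (∏ j ∈ s, (1 - C (α j) * X : ℂ[X])).coeff k := by
      intro k
      rw [prod_insert hb, sub_mul, one_mul, Polynomial.coeff_sub, mul_assoc, Polynomial.coeff_C_mul,
        Polynomial.coeff_X_mul]
    have h2 := WNW_step (fun r => -∑ j ∈ s, α j ^ r) _ _ (α b) h0 h1 ih n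
    rw [h2]
    refine sum_congr rfl fun r _ => ?_
    rw [sum_insert hb]
    ring

end Pool.Agent.OT
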